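import Mathlib
import Pool.Agent.helper12.LE.SpecB
import Pool.Agent.helper79.FI4.NAG

/-!
# Project LE (MP_baa4d7_al), row KAM: norms and the arithmetic-geometric mean
-/

set_option autoImplicit false

namespace Pool.Agent.LE

open Pool.Agent.helper58.DC Pool.Agent.DI Pool.Agent.GR Pool.Agent.OB Pool.Agent.DR Pool.Agent.FI Pool.Agent.FI3 Pool.Agent.FI4 Pool.Agent.FI4C Pool.Agent.FI4B

/-- Norms: all conjugates are divisible by `p ^ k` (copy of `HTL_nag`, `helper1/LE/HTL.lean`). -/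
theorem KAM_nag (hNRC : NRC_stmt) (p : ℕ) (M : Ideal (integralClosure ℤ ℂ)) (hS : Setup p M) (n k : ℕ) (hn : 0 < n) (P : Polynomial ℤ)
    (hμ : ∀ μ ∈ primitiveRoots n ℂ, Polynomial.aeval μ P ≠ 0 ∧ IntAt M (Polynomial.aeval μ P / (p : ℂ) ^ k)) :
    (p : ℝ) ^ (2 * k) * Nat.totient n ≤ ∑ μ ∈ primitiveRoots n ℂ, ‖Polynomial.aeval μ P‖ ^ 2 := by
  classical
  have hcard : (primitiveRoots n ℂ).card = Nat.totient n := Complex.card_primitiveRoots n
  have hφ : 0 < Nat.totient n := Nat.totient_pos.2 hn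
  obtain ⟨N, hN⟩ := hNRC n hn P
  have hp := hS.pr
  have hN0 : N ≠ 0 := by
    rintro rfl
    rw [Int.cast_zero, Finset.prod_eq_zero_iff] at hN
    obtain ⟨μ, h1, h2⟩ := hN
    exact (hμ μ h1).1 h2
  have hint : IntAt M ((N : ℂ) / (p : ℂ) ^ (k * Nat.totient n)) := by
    have h1 := IntAt.prod hS (primitiveRoots n ℂ) fun μ hm => (hμ μ hm).2
    rw [Finset.prod_div_distrib, hN, Finset.prod_const, hcard, ← pow_mul] at h1
    exact h1
  have hdvd : p ^ (k * Nat.totient n) ∣ N.natAbs :=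
    NAG_dvd hS (Int.natAbs_ne_zero.2 hN0) (NAG_neg rfl hint)
  have hle : p ^ (k * Nat.totient n) ≤ N.natAbs := Nat.le_of_dvd (Int.natAbs_pos.2 hN0) hdvd
  have hprod : ∏ μ ∈ primitiveRoots n ℂ, ‖Polynomial.aeval μ P‖ = (N.natAbs : ℝ) := by
    rw [← norm_prod, hN, Complex.norm_intCast, Nat.cast_natAbs, Int.cast_abs]
  have hprod2 : ((p : ℝ) ^ (2 * k)) ^ Nat.totient n ≤ ∏ μ ∈ primitiveRoots n ℂ, ‖Polynomial.aeval μ P‖ ^ 2 := by
    rw [Finset.prod_pow, hprod, ← pow_mul, mul_assoc, mul_comm 2, pow_mul]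
    exact pow_le_pow_left₀ (by positivity) (by exact_mod_cast hle) 2
  have hφR : (0 : ℝ) < (Nat.totient n : ℝ) := by exact_mod_cast hφ
  have hag := Real.geom_mean_le_arith_mean_weighted (primitiveRoots n ℂ) (fun _ => (Nat.totient n : ℝ)⁻¹)
    (fun μ => ‖Polynomial.aeval μ P‖ ^ 2) (fun _ _ => by positivity)
    (by rw [Finset.sum_const, hcard, nsmul_eq_mul, mul_inv_cancel₀ hφR.ne']) (fun _ _ => by positivity)
  rw [← Finset.mul_sum, Real.finsetProd_rpow _ _ (fun _ _ => by positivity)] at hag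
  have h5 : (p : ℝ) ^ (2 * k) ≤ (∏ μ ∈ primitiveRoots n ℂ, ‖Polynomial.aeval μ P‖ ^ 2) ^ ((Nat.totient n : ℝ)⁻¹) := by
    have h6 : (p : ℝ) ^ (2 * k) = (((p : ℝ) ^ (2 * k)) ^ Nat.totient n) ^ ((Nat.totient n : ℝ)⁻¹) := by
      rw [← Real.rpow_natCast ((p : ℝ) ^ (2 * k)) (Nat.totient n), ← Real.rpow_mul (by positivity),
        mul_inv_cancel₀ hφR.ne', Real.rpow_one]
    rw [h6]
    exact Real.rpow_le_rpow (by positivity) hprod2 (by positivity)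
  have h7 := h5.trans hag
  rw [inv_mul_eq_div, le_div_iff₀ hφR] at h7
  exact h7

/-- Row KAM. -/
theorem KAM (hKZU : KZU_stmt) (hKZJ : KZJ_stmt) (hKRP : KRP_stmt) (hNRC : NRC_stmt) : KAM_stmt := by
  classical
  intro p M hS hp2 G _ _ D x θ χ lo ε hε h g K u hK m hm ψ hψB hPR hKH
  have hp := hS.pr
  have : Fact p.Prime := ⟨hp⟩
  have hpD : IsPGroup p D := lo.rt.dfa.pgrp
  have hpK : IsPGroup p K := hpD.to_le hK.le
  obtain ⟨b, hb⟩ := IsPGroup.iff_card.1 hpK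
  obtain ⟨n, hn⟩ : ∃ n, n = p * Nat.card D := ⟨_, rfl⟩
  have hnpos : 0 < n := by
    rw [hn]
    exact Nat.mul_pos hp.pos Nat.card_pos
  have hnz : NeZero n := ⟨hnpos.ne'⟩
  have hζ := Complex.isPrimitiveRoot_exp n hnpos.ne'
  obtain ⟨ζ, hζe⟩ : ∃ ζ : ℂ, ζ = Complex.exp (2 * Real.pi * Complex.I / n) := ⟨_, rfl⟩
  rw [← hζe] at hζ
  obtain ⟨P, hP⟩ := hKZJ p M hS hp2 G D x θ χ lo ε hε h g K u hK ψ hψB.1 ζ (by rw [← hn]; exact hζ)
  have hps : ∀ s : ℕ, s.Coprime n → ¬ p ∣ s := by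
    intro s hs hd
    have h1 : p ∣ n := by rw [hn]; exact dvd_mul_right _ _
    exact hp.one_lt.ne' (Nat.eq_one_of_dvd_coprimes hs hd h1)
  have h1 := KAM_nag hNRC p M hS n b hnpos P (by
    intro μ hμ
    rw [mem_primitiveRoots hnpos] at hμ
    obtain ⟨s, -, hs, rfl⟩ := hζ.isPrimitiveRoot_iff.1 hμ
    rw [← hP s (hps s hs)]
    obtain ⟨h2, h3⟩ := hKZU p M hS hp2 G D x θ χ lo ε hε h g K (u ^ s)
      (hKRP p M hp G D θ lo.rt.th hpD lo.rt.com h g K u hK s (hps s hs)) m hm ψ hψB hPR hKH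
    refine ⟨h3, ?_⟩
    rw [hb, Nat.cast_pow] at h2
    exact h2)
  rw [← hn]
  have e : (Nat.card K : ℝ) ^ 2 = (p : ℝ) ^ (2 * b) := by
    rw [hb, Nat.cast_pow, ← pow_mul, mul_comm]
  rw [e]
  refine h1.trans (le_of_eq ?_)
  symm
  refine Finset.sum_bij (fun s _ => ζ ^ s) ?_ ?_ ?_ ?_
  · intro s hs
    rw [Finset.mem_filter, Finset.mem_range] at hs
    rw [mem_primitiveRoots hnpos]
    exact hζ.pow_of_coprime s hs.2
  · intro s hs t ht hst
    rw [Finset.mem_filter, Finset.mem_range] at hs ht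
    exact hζ.pow_inj hs.1 ht.1 hst
  · intro μ hμ
    rw [mem_primitiveRoots hnpos] at hμ
    obtain ⟨s, hs1, hs2, hs3⟩ := hζ.isPrimitiveRoot_iff.1 hμ
    exact ⟨s, by rw [Finset.mem_filter, Finset.mem_range]; exact ⟨hs1, hs2⟩, hs3⟩
  · intro s hs
    rw [Finset.mem_filter] at hs
    rw [hP s (hps s hs.2)]

end Pool.Agent.LE
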