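import Mathlib
import Pool.Agent.helper12.LE.SpecB

/-!
# Project LE (MP_baa4d7_al), row KZU: the coset sum is divisible by `|K|`, and not zero
-/

set_option autoImplicit false

namespace Pool.Agent.LE

open Pool.Agent.helper58.DC Pool.Agent.DI Pool.Agent.GR Pool.Agent.OB Pool.Agent.DR Pool.Agent.FI Pool.Agent.FI3 Pool.Agent.FI4 Pool.Agent.FI4C Pool.Agent.FI4B

/-- Coset sums, for the subgroup `K` of the abelian subgroup `D`. -/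
theorem KZU_cs (hKCS : KCS_stmt) (p : ℕ) (hp : p.Prime) {G : Type} [Group G] [Finite G] (D K : Subgroup G)
    (hcom : ∀ c ∈ D, ∀ d ∈ D, c * d = d * c) (hpD : IsPGroup p D) (j : ℕ) (hKD : K ≤ D)
    (hpw : ∀ k ∈ K, ∃ v ∈ D, v ^ p ^ j = k) (f : D → ℂ) (hf : LGC f)
    (hfi : ∀ s : ℕ, s ≡ 1 [MOD p] → ∀ u, f (u ^ s) = f u) (u : G) (hu : u ∈ D) (F : G → ℂ)
    (hF : ∀ v : D, F v = f v) :
    ∃ b z : ℂ, IsIntegral ℤ b ∧ IsIntegral ℤ z ∧ ∑ᶠ k ∈ K, F (u * k) = (Nat.card K : ℂ) * b ∧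
      F u = b + (p : ℂ) ^ j * z := by
  classical
  letI hcg : CommGroup D := { (inferInstance : Group D) with
    mul_comm := fun a c => Subtype.ext (hcom a a.2 c c.2) }
  letI : Fintype D := Fintype.ofFinite D
  obtain ⟨b, z, hb, hz, h1, h2⟩ := hKCS p hp D hpD j (K.subgroupOf D) (by
    intro k hk
    obtain ⟨v, hv, hvk⟩ := hpw k (Subgroup.mem_subgroupOf.1 hk)
    exact ⟨⟨v, hv⟩, Subtype.ext hvk⟩) f hf hfi ⟨u, hu⟩
  refine ⟨b, z, hb, hz, ?_, ?_⟩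
  · have e1 : ∑ᶠ k ∈ K, F (u * k) = ∑ᶠ k : K, F (u * (k : G)) :=
      (finsum_subtype_eq_finsum_cond (f := fun k : G => F (u * k)) (fun k => k ∈ K)).symm
    have e2 : ∑ᶠ k : K.subgroupOf D, f (⟨u, hu⟩ * (k : D)) = ∑ᶠ k : K, F (u * (k : G)) := by
      rw [← finsum_comp_equiv (Subgroup.subgroupOfEquivOfLe hKD).toEquiv]
      refine finsum_congr fun k => ?_
      rw [← hF]
      rfl
    have e3 : Nat.card (K.subgroupOf D) = Nat.card K :=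
      Nat.card_congr (Subgroup.subgroupOfEquivOfLe hKD).toEquiv
    rw [e1, ← e2, ← e3]
    exact h1
  · rw [← h2]
    exact hF ⟨u, hu⟩

theorem KZU_int (k : ℤ) : IsIntegral ℤ (k : ℂ) := by
  have := isIntegral_algebraMap (R := ℤ) (A := ℂ) (x := k)
  simpa using this

/-- Row KZU. -/
theorem KZU (hKCS : KCS_stmt) (hKUT : KUT_stmt) (hGRG : GRG_stmt) (hQDI : QDI_stmt) : KZU_stmt := by
  classical
  intro p M hS hp2 G _ _ D x θ χ lo ε hε h g K u hK m hm ψ hψB hPR hKH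
  obtain ⟨d, k, hψ1, hd, hkh, hval⟩ := hKH
  have hψ : ψ ∈ IrrOn (⊤ : Subgroup G) := hψB.1
  have hpD : IsPGroup p D := lo.rt.dfa.pgrp
  have hpK : IsPGroup p K := hpD.to_le hK.le
  have : Fact p.Prime := ⟨hS.pr⟩
  obtain ⟨b, hb⟩ := IsPGroup.iff_card.1 hpK
  have hp0 : (p : ℂ) ≠ 0 := hS.p_ne
  have hu1 : u ∈ RG M D θ := by
    have h1 := hK.reg 1 K.one_mem
    rwa [mul_one] at h1
  obtain ⟨W, hW, hap⟩ := hε.ap (b + (h + 1))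
  obtain ⟨f, hf, hfi, hfz⟩ := hap ψ hψ
  obtain ⟨F, hF⟩ : ∃ F : G → ℂ, ∀ v : D, F v = f v :=
    ⟨fun v => if hv : v ∈ D then f ⟨v, hv⟩ else 0, fun v => by
      change (if hv : (v : G) ∈ D then f ⟨v, hv⟩ else 0) = f v
      rw [dif_pos v.2]⟩
  have hFz : ∀ v ∈ RG M D θ, ∃ z : ℂ, IsIntegral ℤ z ∧
      F v = (W : ℂ) * ((ε v : ℂ) * dd M (Cz (⊤ : Subgroup G) v) θ ψ v) + (p : ℂ) ^ (b + (h + 1)) * z := by
    intro v hv
    obtain ⟨z, hz, e⟩ := hfz ⟨v, hv.1⟩ hv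
    exact ⟨z, hz, by rw [← e]; exact hF ⟨v, hv.1⟩⟩
  obtain ⟨b', z₂, hb', hz₂, hsum, hfu⟩ := KZU_cs hKCS p hS.pr D K lo.rt.com hpD (h + 1) hK.le hK.pw f hf
    (hfi m hm hPR) u hK.mem F hF
  -- the sum over `K`
  have hz1 : ∀ k' : G, ∃ z : ℂ, IsIntegral ℤ z ∧ (k' ∈ K → F (u * k') = (W : ℂ) * ((ε (u * k') : ℂ) *
      dd M (Cz (⊤ : Subgroup G) (u * k')) θ ψ (u * k')) + (p : ℂ) ^ (b + (h + 1)) * z) := by
    intro k'
    by_cases hk' : k' ∈ K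
    · obtain ⟨z, hz, e⟩ := hFz (u * k') (hK.reg k' hk')
      exact ⟨z, hz, fun _ => e⟩
    · exact ⟨0, isIntegral_zero, fun h1 => absurd h1 hk'⟩
  choose z hz hze using hz1
  obtain ⟨S, hSe⟩ : ∃ S : Finset G, S = (Set.toFinite (K : Set G)).toFinset := ⟨_, rfl⟩
  have hSm : ∀ k' : G, k' ∈ S ↔ k' ∈ K := fun k' => by rw [hSe, Set.Finite.mem_toFinset, SetLike.mem_coe]
  have hfs : ∀ Φ : G → ℂ, ∑ᶠ k' ∈ K, Φ k' = ∑ k' ∈ S, Φ k' := by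
    intro Φ
    rw [hSe]
    exact finsum_mem_eq_finite_toFinset_sum Φ (Set.toFinite (K : Set G))
  obtain ⟨Z, hZ⟩ : ∃ Z : ℂ, Z = ZK M θ ε K ψ u := ⟨_, rfl⟩
  have hZ' : Z = ∑ k' ∈ S, (ε (u * k') : ℂ) * dd M (Cz (⊤ : Subgroup G) (u * k')) θ ψ (u * k') := by
    rw [hZ]
    exact hfs (fun k' => (ε (u * k') : ℂ) * dd M (Cz (⊤ : Subgroup G) (u * k')) θ ψ (u * k'))
  rw [hfs (fun k' => F (u * k'))] at hsum
  have hsum2 : ∑ k' ∈ S, F (u * k') = (W : ℂ) * Z + (p : ℂ) ^ (b + (h + 1)) * ∑ k' ∈ S, z k' := by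
    rw [hZ', Finset.mul_sum, Finset.mul_sum, ← Finset.sum_add_distrib]
    exact Finset.sum_congr rfl fun k' hk' => hze k' ((hSm k').1 hk')
  obtain ⟨z₁, hz₁e⟩ : ∃ z₁ : ℂ, z₁ = ∑ k' ∈ S, z k' := ⟨_, rfl⟩
  have hz₁ : IsIntegral ℤ z₁ := by
    rw [hz₁e]
    exact IsIntegral.sum _ fun k' _ => hz k'
  rw [← hz₁e] at hsum2
  obtain ⟨zu, hzu, hFu⟩ := hFz u hu1
  rw [← hZ]
  have hcard : (Nat.card K : ℂ) = (p : ℂ) ^ b := by rw [hb]; push_cast; rfl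
  rw [hcard] at hsum ⊢
  obtain ⟨δ, hδ⟩ : ∃ δ : ℂ, δ = dd M (Cz (⊤ : Subgroup G) u) θ ψ u := ⟨_, rfl⟩
  rw [← hδ] at hFu
  have hδi : IsIntegral ℤ δ := by
    rw [hδ]
    exact hQDI G M ⊤ θ u (Subgroup.mem_top u) ψ hψ
  have hpb : (p : ℂ) ^ b ≠ 0 := pow_ne_zero _ hp0
  have hW0 : (W : ℂ) ≠ 0 := by
    intro h0
    have h1 : W = 0 := by exact_mod_cast h0
    exact hW (by rw [h1]; exact dvd_zero _)
  have hWi : IntAt M ((W : ℂ)⁻¹) :=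
    (IntAt.of_isIntegral hS (KZU_int W)).inv hS fun h1 => hW ((InM.intCast hS W).1 h1)
  obtain ⟨z₃, hz₃e⟩ : ∃ z₃ : ℂ, z₃ = (p : ℂ) ^ b * zu - z₁ - z₂ := ⟨_, rfl⟩
  have hpi : ∀ n : ℕ, IsIntegral ℤ ((p : ℂ) ^ n) := fun n => by
    have := KZU_int (p : ℤ)
    rw [Int.cast_natCast] at this
    exact this.pow n
  have hz₃ : IsIntegral ℤ z₃ := by
    rw [hz₃e]
    exact (((hpi b).mul hzu).sub hz₁).sub hz₂
  have hmain : Z / (p : ℂ) ^ b = (ε u : ℂ) * δ + (p : ℂ) ^ (h + 1) * ((W : ℂ)⁻¹ * z₃) := by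
    have e1 : (W : ℂ) * Z = (p : ℂ) ^ b * ((W : ℂ) * ((ε u : ℂ) * δ) + (p : ℂ) ^ (h + 1) * z₃) := by
      rw [hz₃e]
      have e2 : (p : ℂ) ^ (b + (h + 1)) = (p : ℂ) ^ b * (p : ℂ) ^ (h + 1) := pow_add _ _ _
      rw [e2] at hsum2 hFu
      rw [hFu] at hfu
      rw [hsum] at hsum2
      linear_combination -hsum2 - (p : ℂ) ^ b * hfu
    field_simp
    linear_combination e1
  have hy : IntAt M ((W : ℂ)⁻¹ * z₃) := hWi.mul hS (IntAt.of_isIntegral hS hz₃)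
  refine ⟨?_, ?_⟩
  · rw [hmain]
    exact ((IntAt.of_isIntegral hS (KZU_int (ε u))).mul hS (IntAt.of_isIntegral hS hδi)).add hS
      ((IntAt.of_isIntegral hS (hpi (h + 1))).mul hS hy)
  · intro hZ0
    rw [hZ0, zero_div] at hmain
    obtain ⟨hg1, hg2⟩ := hGRG p M hS hp2 G D x θ χ lo u hu1
    obtain ⟨-, hni⟩ := hKUT p M hS G D x θ χ lo u hK.mem hg1 hg2 ψ hψB d k hψ1 hd hval
    rw [← hδ] at hni
    apply hni
    have hpk : (p : ℂ) ^ k ≠ 0 := pow_ne_zero _ hp0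
    have e3 : (p : ℂ) ^ (h + 1) = (p : ℂ) ^ k * ((p : ℂ) * (p : ℂ) ^ (h - k)) := by
      rw [← pow_succ', ← pow_add]
      congr 1
      omega
    have hin : InM M ((p : ℂ) * ((p : ℂ) ^ (h - k) * ((W : ℂ)⁻¹ * z₃))) :=
      InM.mul_right hS (InM.prime_mem hS) ((IntAt.of_isIntegral hS (hpi (h - k))).mul hS hy)
    have hε2 : (ε u : ℂ) * (ε u : ℂ) = 1 := by
      rcases hε.pm u with h1 | h1 <;> rw [h1] <;> norm_num
    have e4 : δ / (p : ℂ) ^ k = -((ε u : ℂ) * ((p : ℂ) * ((p : ℂ) ^ (h - k) * ((W : ℂ)⁻¹ * z₃)))) := by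
      rw [div_eq_iff hpk]
      rw [e3] at hmain
      linear_combination (-δ) * hε2 + (-(ε u : ℂ)) * hmain
    rw [e4]
    exact (InM.mul_left hS (IntAt.of_isIntegral hS (KZU_int (ε u))) hin).neg

end Pool.Agent.LE
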