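import Pool.Agent.helper83.LE.SpecB

/-!
# Row le:GM2 (MP_baa4d7_al): exponents `m` exist
-/

set_option autoImplicit false

namespace Pool.Agent.LE

open Pool.Agent.helper58.DC Pool.Agent.DI Pool.Agent.GR Pool.Agent.OB Pool.Agent.DR Pool.Agent.FI Pool.Agent.FI3 Pool.Agent.FI4 Pool.Agent.FI4C

theorem GM2_gen (p n : ℕ) (hp : p.Prime) (hp2 : p ≠ 2) (s : ℕ) (hs : s ≡ 1 [MOD p]) :
    ∃ j : ℕ, (((1 + p) ^ j : ℕ) : ZMod (p ^ (n + 1))) = (s : ZMod (p ^ (n + 1))) := by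
  have : NeZero (p ^ (n + 1)) := ⟨pow_ne_zero _ hp.ne_zero⟩
  have hcyc : IsCyclic (ZMod (p ^ (n + 1)))ˣ := ZMod.isCyclic_units_of_prime_pow p hp hp2 (n + 1)
  have hcop : ∀ r : ℕ, r ≡ 1 [MOD p] → r.Coprime (p ^ (n + 1)) := by
    intro r hr
    refine Nat.Coprime.pow_right _ ?_
    have h := hr.gcd_eq
    rw [Nat.gcd_one_left] at h
    exact h
  have h1p : 1 + p ≡ 1 [MOD p] := by
    unfold Nat.ModEq
    rw [Nat.add_mod_right]
  set u : (ZMod (p ^ (n + 1)))ˣ := ZMod.unitOfCoprime (1 + p) (hcop _ h1p) with hu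
  set t : (ZMod (p ^ (n + 1)))ˣ := ZMod.unitOfCoprime s (hcop _ hs) with ht
  have hou : orderOf u = p ^ n := by
    rw [← orderOf_units, hu, ZMod.coe_unitOfCoprime]
    have h := ZMod.orderOf_one_add_prime hp hp2 n
    push_cast
    exact h
  have hpow : ∀ r : ℕ, r ≡ 1 [MOD p] → (r : ZMod (p ^ (n + 1))) ^ p ^ n = 1 := by
    intro r hr
    have h1 : ((p : ℕ) : ℤ) ∣ (r : ℤ) - 1 := by
      have := (Nat.modEq_iff_dvd.mp hr.symm)
      push_cast at this
      exact this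
    have h2 := dvd_sub_pow_of_dvd_sub (R := ℤ) (p := p) h1 n
    rw [one_pow] at h2
    have h3 : (((r : ℤ) ^ p ^ n - 1 : ℤ) : ZMod (p ^ (n + 1))) = 0 := by
      rw [ZMod.intCast_zmod_eq_zero_iff_dvd]
      push_cast
      exact h2
    push_cast at h3
    exact sub_eq_zero.mp h3
  have htp : t ^ p ^ n = 1 := by
    refine Units.ext ?_
    rw [Units.val_pow_eq_pow_val, ht, ZMod.coe_unitOfCoprime, Units.val_one]
    exact hpow s hs
  classical
  have hfin : Fintype (ZMod (p ^ (n + 1)))ˣ := Fintype.ofFinite _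
  have hcard := IsCyclic.card_pow_eq_one_le (α := (ZMod (p ^ (n + 1)))ˣ) (n := p ^ n) (pow_pos hp.pos n)
  have hsub : (Finset.range (orderOf u)).image (fun i => u ^ i) ⊆ Finset.univ.filter (fun a : (ZMod (p ^ (n + 1)))ˣ => a ^ p ^ n = 1) := by
    intro x hx
    rw [Finset.mem_image] at hx
    obtain ⟨i, -, rfl⟩ := hx
    rw [Finset.mem_filter]
    refine ⟨Finset.mem_univ _, ?_⟩
    rw [← pow_mul, mul_comm, pow_mul, ← hou, pow_orderOf_eq_one, one_pow]
  have hci : ((Finset.range (orderOf u)).image (fun i => u ^ i)).card = p ^ n := by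
    rw [Finset.card_image_of_injOn, Finset.card_range, hou]
    intro i hi j hj hij
    rw [Finset.mem_coe, Finset.mem_range] at hi hj
    exact pow_injOn_Iio_orderOf hi hj hij
  have heq := Finset.eq_of_subset_of_card_le hsub (by rw [hci]; exact hcard)
  have hmem : t ∈ (Finset.range (orderOf u)).image (fun i => u ^ i) := by
    rw [heq, Finset.mem_filter]
    exact ⟨Finset.mem_univ _, htp⟩
  rw [Finset.mem_image] at hmem
  obtain ⟨j, -, hj⟩ := hmem
  refine ⟨j, ?_⟩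
  have h := congrArg (fun x : (ZMod (p ^ (n + 1)))ˣ => (x : ZMod (p ^ (n + 1)))) hj
  change ((u ^ j : (ZMod (p ^ (n + 1)))ˣ) : ZMod (p ^ (n + 1))) = (t : ZMod (p ^ (n + 1))) at h
  rw [Units.val_pow_eq_pow_val, hu, ht, ZMod.coe_unitOfCoprime, ZMod.coe_unitOfCoprime] at h
  rw [Nat.cast_pow]
  exact h

theorem GM2 : GM2_stmt := by
  intro p n hp hp2 hn
  obtain ⟨a, n', hn', rfl⟩ := Nat.exists_eq_pow_mul_and_not_dvd hn.ne' p hp.ne_one
  have hcp : ∀ (k d : ℕ), ¬ p ∣ d → Nat.Coprime (p ^ k) d := fun k d hd =>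
    Nat.Coprime.pow_left k ((Nat.Prime.coprime_iff_not_dvd hp).2 hd)
  obtain ⟨m, hm1, hm2⟩ := Nat.chineseRemainder (hcp a n' hn') (1 + p) 1
  have hdv : ∀ k, p ^ k ∣ p ^ a * n' → p ^ k ∣ p ^ a := fun k hk => Nat.Coprime.dvd_of_dvd_mul_right (hcp k n' hn') hk
  have h1p : 1 + p ≡ 1 [MOD p] := by
    unfold Nat.ModEq
    rw [Nat.add_mod_right]
  refine ⟨m, ?_, ?_, ?_, ?_, ?_⟩
  · refine Nat.Coprime.mul_right ?_ ?_
    · rcases Nat.eq_zero_or_pos a with ha | ha
      · rw [ha, pow_zero]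
        exact Nat.coprime_one_right m
      · refine Nat.Coprime.pow_right _ ?_
        have h2 : m ≡ 1 [MOD p] := (hm1.of_dvd (dvd_pow_self p ha.ne')).trans h1p
        have h := h2.gcd_eq
        rw [Nat.gcd_one_left] at h
        exact h
    · have h := hm2.gcd_eq
      rw [Nat.gcd_one_left] at h
      exact h
  · intro d hd hpd
    exact hm2.of_dvd (Nat.Coprime.dvd_of_dvd_mul_left (hcp a d hpd).symm hd)
  · intro hpn
    have h := hdv 1 (by rw [pow_one]; exact hpn)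
    rw [pow_one] at h
    exact (hm1.of_dvd h).trans h1p
  · intro hpn
    exact hm1.of_dvd (hdv 2 hpn)
  · intro s hs
    rcases Nat.eq_zero_or_pos a with ha | ha
    · refine ⟨0, fun k hk => ?_⟩
      have h := hdv k hk
      rw [ha, pow_zero, Nat.dvd_one] at h
      rw [h]
      exact Nat.modEq_one
    · obtain ⟨b, rfl⟩ : ∃ b, a = b + 1 := ⟨a - 1, by omega⟩
      obtain ⟨j, hj⟩ := GM2_gen p b hp hp2 s hs
      refine ⟨j, fun k hk => ?_⟩
      have h4 : (1 + p) ^ j ≡ s [MOD p ^ (b + 1)] := (ZMod.natCast_eq_natCast_iff _ _ _).1 hj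
      exact ((hm1.pow j).trans h4).of_dvd (hdv k hk)

end Pool.Agent.LE
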